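import Pool.Agent.H16DUP.Unitary

/-!
# The bound for a scale invariant triangle-free function
-/

set_option autoImplicit false
set_option linter.unusedSectionVars false

namespace Pool.Agent.H16DUP

open Finset Matrix

variable {F : Type} [Field F] [Fintype F] {σ : F →+* F} {q : ℕ}

theorem ne_zero_of_herm {x : Fin 3 → F} (hx : herm σ x x ≠ 0) : x ≠ 0 := by
  rintro rfl
  apply hx
  simp [herm]

theorem herm_smul_right_zero (l : Fˣ) (x y : Fin 3 → F) :
    herm σ x ((l : F) • y) = 0 ↔ herm σ x y = 0 := by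
  rw [herm_smul_right, mul_eq_zero]
  constructor
  · rintro (h | h)
    · exact absurd ((map_eq_zero σ).1 h) l.ne_zero
    · exact h
  · exact Or.inr

theorem herm_smul_left_zero (l : Fˣ) (x y : Fin 3 → F) :
    herm σ ((l : F) • x) y = 0 ↔ herm σ x y = 0 := by
  rw [herm_smul_left, mul_eq_zero]
  constructor
  · rintro (h | h)
    · exact absurd h l.ne_zero
    · exact h
  · exact Or.inr

open Classical in
theorem A_bound (h : Hyp σ q) {ι τ : Type} [Fintype ι] [DecidableEq ι] [Fintype τ]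
    (w : ι → Fin 3 → F) (fr : τ → Fin 3 → ι) (i0 : ι) (hw0 : w i0 = Pi.single 0 1)
    (hpar : ∀ j, (univ.filter (fun p : τ × Fin 3 => fr p.1 p.2 = j)).card % 2 =
      if j = i0 then 1 else 0)
    (horth : ∀ t i j, herm σ (w (fr t i)) (w (fr t j)) = if i = j then 1 else 0)
    (f : (Fin 3 → F) → ℕ) (hf : ∀ x, f x ≤ 1)
    (hscale : ∀ (l : Fˣ) (x : Fin 3 → F), f ((l : F) • x) = f x)
    (habs : ∀ x, herm σ x x = 0 → f x = 0)
    (htri : ∀ B, Orth σ B → f (B 0) * f (B 1) * f (B 2) = 0) :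
    6 * (Fintype.card τ : ℝ) * ((univ.filter (fun x => f x = 1)).card : ℝ) ≤
      (3 * (Fintype.card τ : ℝ) - 1) * (q : ℝ) ^ 6 + 6 * (Fintype.card τ : ℝ) * (q : ℝ) ^ 5 := by
  have hq := h.hq
  have hq2 : (2 : ℝ) ≤ q := by exact_mod_cast hq
  have hq0 : (0 : ℝ) < q := by linarith
  have hqq : (0 : ℝ) < (q : ℝ) ^ 2 - 1 := by nlinarith
  set c : ℝ := (Fintype.card τ : ℝ) with hc
  have hc1 : (1 : ℝ) ≤ c := by
    have h1 := hpar i0
    rw [if_pos rfl] at h1
    have h2 : (univ.filter (fun p : τ × Fin 3 => fr p.1 p.2 = i0)).card ≠ 0 := by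
      intro h0
      rw [h0] at h1
      simp at h1
    rw [Finset.card_ne_zero] at h2
    obtain ⟨p, _⟩ := h2
    have h3 : 0 < Fintype.card τ := Fintype.card_pos_iff.2 ⟨p.1⟩
    rw [hc]
    exact_mod_cast h3
  set A : Finset (Fin 3 → F) := univ.filter (fun x => f x = 1) with hA
  set a : ℝ := (A.card : ℝ) with ha
  have ha0 : 0 ≤ a := by rw [ha]; positivity
  have hA0 : ∀ v ∈ A, herm σ v v ≠ 0 := by
    intro v hv hv0
    rw [hA, mem_filter] at hv
    rw [habs v hv0] at hv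
    exact zero_ne_one hv.2
  set Ω : Finset (Fin 3 → F) := univ.filter (fun x => herm σ x x = 1) with hΩ
  set D : ℝ := ∑ v ∈ Ω, ∑ w ∈ Ω, (if herm σ v w = 0 then (f v : ℝ) else 0) with hD
  set Eu : ℝ := ∑ v ∈ Ω, ∑ w ∈ Ω, (if herm σ v w = 0 then (f v : ℝ) * f w else 0) with hEu
  set E : ℝ := ∑ x ∈ A, ∑ v ∈ A, (if herm σ x v = 0 then (1 : ℝ) else 0) with hE
  set au : ℝ := ∑ v ∈ Ω, (f v : ℝ) with hau
  -- the frames inequality
  have h1 : D ≤ c * (3 * D - 6 * Eu) := by
    have h2 := frame_ineq w fr i0 hw0 hpar horth f hf htri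
    have h3 := sum_orth_pair h (fun v _ => (f v : ℝ))
    have h4 := sum_orth_pair h (fun v w => (f v : ℝ) * f w)
    rw [h3, h4, ← hΩ, ← hD, ← hEu, ← hc] at h2
    have h5 : ((q : ℝ) + 1) * D ≤ (q + 1) * (c * (3 * D - 6 * Eu)) := by
      calc _ ≤ _ := h2
        _ = _ := by ring
    exact le_of_mul_le_mul_left h5 (by linarith)
  -- the sum of f
  have h2 : ((q : ℝ) ^ 2 - 1) * au = (q + 1) * a := by
    rw [hau, hΩ, sum_unit h (fun x => (f x : ℝ)) (fun l x => by rw [hscale])]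
    congr 1
    rw [ha, hA, Finset.card_filter, Nat.cast_sum, Finset.sum_filter]
    apply Finset.sum_congr rfl
    intro x _
    by_cases hx : herm σ x x ≠ 0
    · rw [if_pos hx]
      have := hf x
      interval_cases hfx : f x <;> simp
    · rw [if_neg hx]
      rw [not_not] at hx
      rw [habs x hx]
      simp
  -- the sum D
  have h3 : ((q : ℝ) ^ 2 - 1) * D ≤ (q + 1) * (q : ℝ) ^ 4 * au := by
    rw [hD, hau, Finset.mul_sum, Finset.mul_sum]
    apply Finset.sum_le_sum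
    intro v hv
    rw [hΩ, mem_filter] at hv
    have hv0 : v ≠ 0 := ne_zero_of_herm (σ := σ) (by rw [hv.2]; exact one_ne_zero)
    have h4 : ∑ w ∈ Ω, (if herm σ v w = 0 then (f v : ℝ) else 0) =
        (∑ w ∈ Ω, (if herm σ v w = 0 then (1 : ℝ) else 0)) * f v := by
      rw [Finset.sum_mul]
      apply Finset.sum_congr rfl
      intro w _
      split_ifs <;> simp
    rw [h4, ← mul_assoc]
    apply mul_le_mul_of_nonneg_right _ (by positivity)
    rw [hΩ, sum_unit h (fun w => (if herm σ v w = 0 then (1 : ℝ) else 0)) (fun l x => by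
      simp only [herm_smul_right_zero])]
    apply mul_le_mul_of_nonneg_left _ (by linarith)
    have h5 := card_hyper h v hv0
    have h6 : ∑ w ∈ univ.filter (fun x => herm σ x x ≠ 0), (if herm σ v w = 0 then (1 : ℝ) else 0) ≤
        ∑ w : Fin 3 → F, (if herm σ w v = 0 then (1 : ℝ) else 0) := by
      have h7 : ∀ w : Fin 3 → F, (if herm σ v w = 0 then (1 : ℝ) else 0) =
          (if herm σ w v = 0 then (1 : ℝ) else 0) := by
        intro w
        by_cases hvw : herm σ v w = 0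
        · rw [if_pos hvw, if_pos (herm_zero_comm h hvw)]
        · rw [if_neg hvw, if_neg (fun hh => hvw (herm_zero_comm h hh))]
      rw [Finset.sum_congr rfl (fun w _ => h7 w)]
      apply Finset.sum_le_univ_sum_of_nonneg
      intro w
      split_ifs <;> norm_num
    refine h6.trans (le_of_eq ?_)
    rw [← Finset.sum_filter, Finset.sum_const, nsmul_eq_mul, mul_one, h5]
    push_cast
    ring
  -- the sum Eu
  have h4 : ((q : ℝ) ^ 2 - 1) ^ 2 * Eu = (q + 1) ^ 2 * E := by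
    have h5 : ∀ v : Fin 3 → F, ((q : ℝ) ^ 2 - 1) *
        ∑ w ∈ Ω, (if herm σ v w = 0 then (f v : ℝ) * f w else 0) =
        (q + 1) * ∑ w ∈ univ.filter (fun x => herm σ x x ≠ 0),
          (if herm σ v w = 0 then (f v : ℝ) * f w else 0) := by
      intro v
      rw [hΩ]
      apply sum_unit h (fun w => (if herm σ v w = 0 then (f v : ℝ) * f w else 0))
      intro l x
      simp only [herm_smul_right_zero, hscale]
    have h6 : ((q : ℝ) ^ 2 - 1) * Eu = (q + 1) * ∑ v ∈ Ω,
        ∑ w ∈ univ.filter (fun x => herm σ x x ≠ 0),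
          (if herm σ v w = 0 then (f v : ℝ) * f w else 0) := by
      rw [hEu, Finset.mul_sum, Finset.mul_sum]
      exact Finset.sum_congr rfl (fun v _ => h5 v)
    have h7 : ((q : ℝ) ^ 2 - 1) * ∑ v ∈ Ω, ∑ w ∈ univ.filter (fun x => herm σ x x ≠ 0),
          (if herm σ v w = 0 then (f v : ℝ) * f w else 0) = (q + 1) *
        ∑ v ∈ univ.filter (fun x => herm σ x x ≠ 0), ∑ w ∈ univ.filter (fun x => herm σ x x ≠ 0),
          (if herm σ v w = 0 then (f v : ℝ) * f w else 0) := by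
      rw [hΩ]
      apply sum_unit h (fun v => ∑ w ∈ univ.filter (fun x => herm σ x x ≠ 0),
          (if herm σ v w = 0 then (f v : ℝ) * f w else 0))
      intro l x
      simp only [herm_smul_left_zero, hscale]
    have h8 : ∑ v ∈ univ.filter (fun x => herm σ x x ≠ 0), ∑ w ∈ univ.filter (fun x => herm σ x x ≠ 0),
          (if herm σ v w = 0 then (f v : ℝ) * f w else 0) = E := by
      rw [hE]
      have hsub : A ⊆ univ.filter (fun x => herm σ x x ≠ 0) := by
        intro v hv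
        rw [mem_filter]
        exact ⟨mem_univ _, hA0 v hv⟩
      have hz : ∀ v, v ∉ A → f v = 0 := by
        intro v hv
        have h9 := hf v
        rw [hA, mem_filter, not_and] at hv
        have := hv (mem_univ _)
        omega
      rw [← Finset.sum_subset hsub]
      · apply Finset.sum_congr rfl
        intro v hv
        rw [← Finset.sum_subset hsub]
        · apply Finset.sum_congr rfl
          intro w hw
          rw [hA, mem_filter] at hv hw
          rw [hv.2, hw.2]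
          simp
        · intro w _ hw
          rw [hz w hw]
          simp
      · intro v _ hv
        rw [hz v hv]
        simp
    calc ((q : ℝ) ^ 2 - 1) ^ 2 * Eu = ((q : ℝ) ^ 2 - 1) * (((q : ℝ) ^ 2 - 1) * Eu) := by ring
      _ = (q + 1) ^ 2 * E := by
        rw [h6, ← h8]
        calc _ = (q + 1) * (((q : ℝ) ^ 2 - 1) * ∑ v ∈ Ω, ∑ w ∈ univ.filter (fun x => herm σ x x ≠ 0),
            (if herm σ v w = 0 then (f v : ℝ) * f w else 0)) := by ring
          _ = _ := by rw [h7]; ring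
  -- the combination
  have h5 : 6 * c * E ≤ (3 * c - 1) * (q : ℝ) ^ 4 * a := by
    have e1 : 6 * c * Eu ≤ (3 * c - 1) * D := by linarith
    have e2 : ((q : ℝ) ^ 2 - 1) ^ 2 * (6 * c * Eu) ≤ ((q : ℝ) ^ 2 - 1) ^ 2 * ((3 * c - 1) * D) :=
      mul_le_mul_of_nonneg_left e1 (by positivity)
    have e3 : ((q : ℝ) ^ 2 - 1) ^ 2 * ((3 * c - 1) * D) ≤
        ((q : ℝ) ^ 2 - 1) * (3 * c - 1) * ((q + 1) * (q : ℝ) ^ 4 * au) := by
      calc _ = ((q : ℝ) ^ 2 - 1) * (3 * c - 1) * (((q : ℝ) ^ 2 - 1) * D) := by ring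
        _ ≤ _ := mul_le_mul_of_nonneg_left h3 (mul_nonneg hqq.le (by linarith))
    have e4 : ((q : ℝ) ^ 2 - 1) * (3 * c - 1) * ((q + 1) * (q : ℝ) ^ 4 * au) =
        ((q : ℝ) + 1) ^ 2 * ((3 * c - 1) * (q : ℝ) ^ 4 * a) := by
      calc _ = (3 * c - 1) * ((q : ℝ) + 1) * (q : ℝ) ^ 4 * (((q : ℝ) ^ 2 - 1) * au) := by ring
        _ = _ := by rw [h2]; ring
    have e5 : ((q : ℝ) ^ 2 - 1) ^ 2 * (6 * c * Eu) = ((q : ℝ) + 1) ^ 2 * (6 * c * E) := by
      calc _ = 6 * c * (((q : ℝ) ^ 2 - 1) ^ 2 * Eu) := by ring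
        _ = _ := by rw [h4]; ring
    rw [e5] at e2
    rw [e4] at e3
    exact le_of_mul_le_mul_left (e2.trans e3) (by positivity)
  have h6 := mixing h A (fun v hv => ne_zero_of_herm (hA0 v hv))
  rw [← ha, ← hE] at h6
  rcases eq_or_lt_of_le ha0 with h0 | hpos
  · rw [← h0]
    have : 0 ≤ (3 * c - 1) * (q : ℝ) ^ 6 := mul_nonneg (by linarith) (by positivity)
    have : 0 ≤ 6 * c * (q : ℝ) ^ 5 := by positivity
    linarith
  · have e1 : 6 * c * (a ^ 2 / (q : ℝ) ^ 2 - a * (q : ℝ) ^ 3) ≤ (3 * c - 1) * (q : ℝ) ^ 4 * a :=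
      (mul_le_mul_of_nonneg_left h6 (by linarith)).trans h5
    have e2 : (a / (q : ℝ) ^ 2) * (6 * c * a) ≤
        (a / (q : ℝ) ^ 2) * ((3 * c - 1) * (q : ℝ) ^ 6 + 6 * c * (q : ℝ) ^ 5) := by
      have e3 : (a / (q : ℝ) ^ 2) * ((3 * c - 1) * (q : ℝ) ^ 6 + 6 * c * (q : ℝ) ^ 5) =
          (3 * c - 1) * (q : ℝ) ^ 4 * a + 6 * c * (a * (q : ℝ) ^ 3) := by
        field_simp
      rw [e3]
      have e4 : (a / (q : ℝ) ^ 2) * (6 * c * a) = 6 * c * (a ^ 2 / (q : ℝ) ^ 2) := by ring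
      rw [e4]
      linarith
    exact le_of_mul_le_mul_left e2 (by positivity)

end Pool.Agent.H16DUP
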