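import Pool.Agent.H16DUP.Herm

/-!
# Counting vectors: unit vectors, hyperplanes, absolute vectors
-/

set_option autoImplicit false
set_option linter.unusedSectionVars false

namespace Pool.Agent.H16DUP

open Finset Matrix

variable {F : Type} [Field F] [Fintype F] {σ : F →+* F} {q : ℕ}

open Classical in
/-- a sum of a scale invariant function over the unit vectors -/
theorem sum_unit (h : Hyp σ q) (g : (Fin 3 → F) → ℝ)
    (hg : ∀ (l : Fˣ) (x : Fin 3 → F), g ((l : F) • x) = g x) :
    ((q : ℝ) ^ 2 - 1) * ∑ x ∈ univ.filter (fun x => herm σ x x = 1), g x =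
      (q + 1) * ∑ x ∈ univ.filter (fun x => herm σ x x ≠ 0), g x := by
  have hq := h.hq
  have h1 : ∑ l : Fˣ, ∑ x : Fin 3 → F,
      (if herm σ ((l : F) • x) ((l : F) • x) = 1 then g ((l : F) • x) else 0) =
      ((q : ℝ) ^ 2 - 1) * ∑ x ∈ univ.filter (fun x => herm σ x x = 1), g x := by
    have h2 : ∀ l : Fˣ, ∑ x : Fin 3 → F,
        (if herm σ ((l : F) • x) ((l : F) • x) = 1 then g ((l : F) • x) else 0) =
        ∑ x ∈ univ.filter (fun x => herm σ x x = 1), g x := by
      intro l
      rw [Finset.sum_filter]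
      exact Fintype.sum_equiv (MulAction.toPerm l) _ _ (fun x => rfl)
    rw [Finset.sum_congr rfl (fun l _ => h2 l), Finset.sum_const, card_univ, Fintype.card_units,
      h.card, nsmul_eq_mul, Nat.cast_sub (by nlinarith)]
    push_cast
    ring
  rw [← h1, Finset.sum_comm, Finset.mul_sum, Finset.sum_filter]
  apply Finset.sum_congr rfl
  intro x _
  rw [← Finset.sum_filter, Finset.sum_congr rfl (fun l _ => hg l x), Finset.sum_const, nsmul_eq_mul]
  by_cases hx : herm σ x x ≠ 0
  · rw [if_pos hx, card_unit_scalars h x hx]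
    push_cast
    ring
  · rw [if_neg hx]
    rw [not_not] at hx
    have h3 : (univ.filter (fun l : Fˣ => herm σ ((l : F) • x) ((l : F) • x) = 1)) = ∅ := by
      rw [Finset.filter_eq_empty_iff]
      intro l _
      rw [herm_smul_left, herm_smul_right, hx]
      simp
    rw [h3]
    simp

/-- the functional `x ↦ herm x v` -/
def hermL (σ : F →+* F) (v : Fin 3 → F) : (Fin 3 → F) →ₗ[F] F where
  toFun x := herm σ x v
  map_add' x y := herm_add_left x y v
  map_smul' c x := by rw [herm_smul_left]; rfl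

theorem herm_single (v : Fin 3 → F) (i : Fin 3) : herm σ (Pi.single i 1) v = σ (v i) := by
  rw [herm, Finset.sum_eq_single i]
  · simp
  · intro j _ hj
    rw [Pi.single_eq_of_ne hj, zero_mul]
  · intro hi
    exact absurd (mem_univ _) hi

open Classical in
theorem card_hyper (h : Hyp σ q) (v : Fin 3 → F) (hv : v ≠ 0) :
    (univ.filter (fun x : Fin 3 → F => herm σ x v = 0)).card = q ^ 4 := by
  have h1 : Function.Surjective (hermL σ v) := by
    rw [← LinearMap.range_eq_top]
    obtain ⟨i, hi⟩ : ∃ i, v i ≠ 0 := by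
      by_contra hc
      push Not at hc
      exact hv (funext hc)
    have h2 : hermL σ v (Pi.single i 1) ≠ 0 := by
      change herm σ (Pi.single i 1) v ≠ 0
      rw [herm_single]
      exact (map_ne_zero σ).2 hi
    rw [LinearMap.range_eq_top]
    intro y
    refine ⟨(y * (hermL σ v (Pi.single i 1))⁻¹) • Pi.single i 1, ?_⟩
    rw [map_smul, smul_eq_mul, mul_assoc, inv_mul_cancel₀ h2, mul_one]
  have h3 := LinearMap.finrank_range_add_finrank_ker (hermL σ v)
  rw [LinearMap.range_eq_top.2 h1, finrank_top, Module.finrank_self, Module.finrank_fin_fun] at h3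
  have h4 : Module.finrank F (LinearMap.ker (hermL σ v)) = 2 := by omega
  have h5 := Module.card_eq_pow_finrank (K := F) (V := LinearMap.ker (hermL σ v))
  rw [h4, h.card, ← pow_mul] at h5
  rw [← show 2 * 2 = 4 from rfl, ← h5, ← Fintype.card_coe]
  apply Fintype.card_congr
  apply Equiv.subtypeEquivRight
  intro x
  rw [mem_filter, LinearMap.mem_ker]
  exact ⟨fun hx => hx.2, fun hx => ⟨mem_univ _, hx⟩⟩

theorem herm_eq_dot (x y : Fin 3 → F) : herm σ x y = x ⬝ᵥ (σ ∘ y) := rfl

theorem dot_conj (x y : Fin 3 → F) : (σ ∘ x) ⬝ᵥ (σ ∘ y) = σ (x ⬝ᵥ y) := by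
  simp [dotProduct, map_sum, map_mul]

theorem cross_conj (x y : Fin 3 → F) : (σ ∘ x) ⨯₃ (σ ∘ y) = σ ∘ (x ⨯₃ y) := by
  rw [cross_apply, cross_apply]
  ext i
  fin_cases i <;> simp

/-- if `x` is orthogonal to both `v, w`, independent, then `x` is a multiple of the conjugated
cross product -/
theorem mul_of_orth (h : Hyp σ q) {v w x : Fin 3 → F} (hvw : v ⨯₃ w ≠ 0)
    (hv : herm σ x v = 0) (hw : herm σ x w = 0) : ∃ c : F, x = c • (σ ∘ (v ⨯₃ w)) := by
  rw [herm_eq_dot] at hv hw
  have h1 : x ⨯₃ ((σ ∘ v) ⨯₃ (σ ∘ w)) = 0 := by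
    rw [cross_cross_eq_smul_sub_smul', hw, dotProduct_comm, hv]
    simp
  rw [cross_conj] at h1
  have h2 : (σ ∘ (v ⨯₃ w)) ≠ 0 := by
    intro h0
    apply hvw
    ext i
    have := congrFun h0 i
    simpa using this
  have h3 := (crossProduct_ne_zero_iff_linearIndependent (F := F)
    (v := (σ ∘ (v ⨯₃ w))) (w := x)).not
  have h4 : (σ ∘ (v ⨯₃ w)) ⨯₃ x = 0 := by
    rw [← cross_anticomm, h1, neg_zero]
  rw [not_not] at h3
  have h5 := h3.1 h4
  rw [LinearIndependent.pair_iff' h2] at h5
  push Not at h5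
  obtain ⟨a, ha⟩ := h5
  exact ⟨a, ha.symm⟩

open Classical in
theorem card_two (h : Hyp σ q) (v w : Fin 3 → F) (hvw : v ⨯₃ w ≠ 0) :
    (univ.filter (fun x : Fin 3 → F => herm σ x v = 0 ∧ herm σ x w = 0)).card ≤ q ^ 2 := by
  have h1 : univ.filter (fun x : Fin 3 → F => herm σ x v = 0 ∧ herm σ x w = 0) ⊆
      univ.image (fun c : F => c • (σ ∘ (v ⨯₃ w))) := by
    intro x hx
    rw [mem_filter] at hx
    obtain ⟨c, hc⟩ := mul_of_orth h hvw hx.2.1 hx.2.2
    rw [mem_image]
    exact ⟨c, mem_univ _, hc.symm⟩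
  refine (card_le_card h1).trans (card_image_le.trans ?_)
  rw [card_univ, h.card]

open Classical in
/-- the number of unit vectors orthogonal to two orthonormal vectors -/
theorem card_third (h : Hyp σ q) (v w : Fin 3 → F) (hv : herm σ v v = 1) (hw : herm σ w w = 1)
    (hvw : herm σ v w = 0) :
    (univ.filter (fun x : Fin 3 → F => herm σ x x = 1 ∧ herm σ x v = 0 ∧ herm σ x w = 0)).card =
      q + 1 := by
  set z : Fin 3 → F := σ ∘ (v ⨯₃ w) with hz
  have hzz : herm σ z z = 1 := by
    rw [herm_eq_dot, hz, dot_conj]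
    have h1 : (v ⨯₃ w) ⬝ᵥ (σ ∘ (v ⨯₃ w)) = 1 := by
      rw [← cross_conj, cross_dot_cross, ← herm_eq_dot, ← herm_eq_dot, ← herm_eq_dot,
        ← herm_eq_dot, hv, hw, hvw]
      ring
    rw [h1, map_one]
  have hz0 : z ≠ 0 := by
    intro h0
    rw [h0, herm_eq_dot, zero_dotProduct] at hzz
    exact zero_ne_one hzz
  have hc0 : v ⨯₃ w ≠ 0 := by
    intro h0
    apply hz0
    rw [hz, h0]
    ext i
    simp
  have hzv : herm σ z v = 0 := by
    rw [herm_eq_dot, hz, dot_conj, dotProduct_comm, dot_self_cross, map_zero]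
  have hzw : herm σ z w = 0 := by
    rw [herm_eq_dot, hz, dot_conj, dotProduct_comm, dot_cross_self, map_zero]
  have h1 : (univ.filter (fun l : F => l ^ (q + 1) = 1)).card = q + 1 :=
    card_norm_eq h 1 one_ne_zero (one_pow _)
  rw [← h1]
  symm
  have key : ∀ c : F, herm σ (c • z) (c • z) = c ^ (q + 1) := by
    intro c
    rw [herm_smul_left, herm_smul_right, hzz, h.pow]
    ring
  apply Finset.card_bij (fun (c : F) _ => c • z)
  · intro c hc
    rw [mem_filter] at hc ⊢
    refine ⟨mem_univ _, ?_, ?_, ?_⟩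
    · rw [key, hc.2]
    · rw [herm_smul_left, hzv, mul_zero]
    · rw [herm_smul_left, hzw, mul_zero]
  · intro c _ c' _ hcc
    exact smul_left_injective F hz0 hcc
  · intro x hx
    rw [mem_filter] at hx
    obtain ⟨-, hx1, hx2, hx3⟩ := hx
    obtain ⟨c, hc⟩ := mul_of_orth h hc0 hx2 hx3
    refine ⟨c, ?_, hc.symm⟩
    rw [mem_filter]
    refine ⟨mem_univ _, ?_⟩
    rw [← key, ← hz] at *
    rw [← hc]
    exact hx1

open Classical in
/-- the number of vectors with `herm x x = 0` -/
theorem card_abs_le (h : Hyp σ q) :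
    (univ.filter (fun x : Fin 3 → F => herm σ x x = 0)).card ≤ q ^ 4 * (q + 1) := by
  have h1 : (univ.filter (fun x : Fin 3 → F => herm σ x x = 0)).card =
      ∑ y : F × F, ((univ.filter (fun x : Fin 3 → F => herm σ x x = 0)).filter
        (fun x => (x 1, x 2) = y)).card := by
    apply Finset.card_eq_sum_card_fiberwise
    intro x _
    exact mem_coe.2 (mem_univ _)
  rw [h1]
  have h2 : ∀ y ∈ (univ : Finset (F × F)), ((univ.filter (fun x : Fin 3 → F => herm σ x x = 0)).filter
        (fun x => (x 1, x 2) = y)).card ≤ q + 1 := by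
    intro y _
    have h3 : ((univ.filter (fun x : Fin 3 → F => herm σ x x = 0)).filter
        (fun x => (x 1, x 2) = y)).card ≤
        (univ.filter (fun l : F => l ^ (q + 1) = -(y.1 ^ (q + 1) + y.2 ^ (q + 1)))).card := by
      apply Finset.card_le_card_of_injOn (fun x => x 0)
      · intro x hx
        rw [mem_coe, mem_filter, mem_filter] at hx
        rw [mem_coe, mem_filter]
        refine ⟨mem_univ _, ?_⟩
        obtain ⟨⟨-, hx1⟩, hx2⟩ := hx
        rw [← hx2]
        simp only [herm, Fin.sum_univ_three, h.pow] at hx1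
        have e : ∀ t : F, t * t ^ q = t ^ (q + 1) := fun t => by ring
        rw [e, e, e] at hx1
        linear_combination hx1
      · intro x hx x' hx' hxx
        rw [mem_coe, mem_filter] at hx hx'
        have e := hx.2.trans hx'.2.symm
        rw [Prod.mk.injEq] at e
        ext i
        fin_cases i
        · exact hxx
        · exact e.1
        · exact e.2
    exact h3.trans (card_pow_eq_le (q + 1) (by omega) _)
  refine (Finset.sum_le_sum h2).trans ?_
  rw [Finset.sum_const, card_univ, Fintype.card_prod, h.card, smul_eq_mul]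
  apply le_of_eq
  ring

end Pool.Agent.H16DUP
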