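import Pool.Agent.H16DUP.Points

/-!
# The configuration over the field with `25` elements

`29` unit vectors over `F_5[ω]`, `ω ^ 2 = 2` (the pair `(a, b)` stands for `a + b ω`), and `19`
orthonormal frames formed by them, such that the vector number `0` lies in one of the frames and
each other vector lies in exactly two of the frames.
-/

set_option autoImplicit false
set_option linter.unusedSectionVars false

namespace Pool.Agent.H16DUP

open Finset Matrix

/-- the vectors -/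
def vec : Fin 29 → Fin 3 → ZMod 5 × ZMod 5 :=
  ![![(1, 0), (0, 0), (0, 0)],
    ![(1, 1), (4, 2), (4, 1)],
    ![(0, 1), (3, 0), (1, 4)],
    ![(1, 1), (1, 1), (0, 4)],
    ![(0, 1), (2, 1), (2, 2)],
    ![(1, 1), (3, 2), (2, 3)],
    ![(0, 1), (4, 1), (2, 0)],
    ![(0, 1), (1, 1), (4, 4)],
    ![(1, 1), (4, 0), (3, 3)],
    ![(1, 1), (2, 2), (4, 0)],
    ![(0, 1), (0, 2), (3, 3)],
    ![(1, 1), (2, 2), (1, 0)],
    ![(0, 1), (2, 2), (2, 1)],
    ![(1, 1), (4, 3), (1, 4)],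
    ![(0, 1), (2, 2), (0, 3)],
    ![(1, 1), (1, 4), (1, 3)],
    ![(1, 1), (1, 4), (0, 4)],
    ![(1, 1), (0, 1), (4, 1)],
    ![(1, 1), (0, 1), (4, 4)],
    ![(1, 1), (3, 3), (3, 2)],
    ![(1, 1), (4, 1), (1, 2)],
    ![(0, 1), (3, 3), (3, 4)],
    ![(1, 1), (1, 0), (4, 0)],
    ![(1, 1), (1, 0), (3, 3)],
    ![(0, 1), (1, 4), (4, 1)],
    ![(1, 1), (2, 3), (2, 2)],
    ![(0, 1), (3, 4), (3, 3)],
    ![(0, 0), (1, 1), (2, 1)],
    ![(0, 0), (0, 2), (2, 0)]]

/-- the frames -/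
def frm : Fin 19 → Fin 3 → Fin 29 :=
  ![![0, 27, 28],
    ![1, 9, 26],
    ![1, 15, 24],
    ![2, 5, 23],
    ![2, 18, 20],
    ![3, 6, 13],
    ![3, 7, 18],
    ![4, 8, 17],
    ![4, 26, 28],
    ![5, 6, 9],
    ![7, 8, 11],
    ![10, 13, 25],
    ![10, 17, 22],
    ![11, 16, 21],
    ![12, 15, 23],
    ![12, 21, 27],
    ![14, 16, 22],
    ![14, 19, 20],
    ![19, 24, 25]]

/-- the first coordinate of the Hermitian product -/
def re (x y : Fin 3 → ZMod 5 × ZMod 5) : ZMod 5 :=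
  ∑ i, ((x i).1 * (y i).1 - 2 * ((x i).2 * (y i).2))

/-- the second coordinate of the Hermitian product -/
def im (x y : Fin 3 → ZMod 5 × ZMod 5) : ZMod 5 :=
  ∑ i, ((x i).2 * (y i).1 - (x i).1 * (y i).2)

theorem vec_orth : ∀ t i j, re (vec (frm t i)) (vec (frm t j)) = (if i = j then 1 else 0) ∧
    im (vec (frm t i)) (vec (frm t j)) = 0 := by
  decide +kernel

theorem frm_par : ∀ j, (univ.filter (fun p : Fin 19 × Fin 3 => frm p.1 p.2 = j)).card % 2 =
    if j = 0 then 1 else 0 := by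
  decide +kernel

variable {F : Type} [Field F] [Fintype F] [CharP F 5]

/-- the element `a + b ω` of `F` -/
def ev (ω : F) (x : ZMod 5 × ZMod 5) : F :=
  ZMod.castHom (dvd_refl 5) F x.1 + ZMod.castHom (dvd_refl 5) F x.2 * ω

theorem cast_fixed (σ : F →+* F) (a : ZMod 5) :
    σ (ZMod.castHom (dvd_refl 5) F a) = ZMod.castHom (dvd_refl 5) F a := by
  have h : σ.comp (ZMod.castHom (dvd_refl 5) F) = ZMod.castHom (dvd_refl 5) F :=
    Subsingleton.elim _ _
  exact congrArg (fun g : ZMod 5 →+* F => g a) h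

theorem herm_ev (σ : F →+* F) (ω : F) (hω : ω ^ 2 = 2) (hσω : σ ω = -ω)
    (x y : Fin 3 → ZMod 5 × ZMod 5) :
    herm σ (fun i => ev ω (x i)) (fun i => ev ω (y i)) =
      ZMod.castHom (dvd_refl 5) F (re x y) + ZMod.castHom (dvd_refl 5) F (im x y) * ω := by
  have h1 : ∀ a b : ZMod 5 × ZMod 5, ev ω a * σ (ev ω b) =
      ZMod.castHom (dvd_refl 5) F (a.1 * b.1 - 2 * (a.2 * b.2)) +
        ZMod.castHom (dvd_refl 5) F (a.2 * b.1 - a.1 * b.2) * ω := by
    intro a b
    have h2 : ZMod.castHom (dvd_refl 5) F 2 = 2 := map_ofNat _ 2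
    simp only [ev, map_add, map_mul, map_sub, cast_fixed, hσω, h2]
    linear_combination (-(ZMod.castHom (dvd_refl 5) F a.2) * (ZMod.castHom (dvd_refl 5) F b.2)) * hω
  simp only [herm, re, im, h1, map_sum, Finset.sum_add_distrib, Finset.sum_mul]

/-- the conjecture fails over `F` of characteristic `5` when `2` is a square, of a root conjugated
to its opposite -/
theorem char5_bound {σ : F →+* F} {q : ℕ} (h : Hyp σ q) (ω : F) (hω : ω ^ 2 = 2)
    (hσω : σ ω = -ω) (S : Finset (Projectivization F (Fin 3 → F)))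
    (hS : ∀ x ∈ S, ∀ y ∈ S, ∀ z ∈ S, x ≠ y → y ≠ z → x ≠ z →
      ¬ (herm σ x.rep y.rep = 0 ∧ herm σ y.rep z.rep = 0 ∧ herm σ x.rep z.rep = 0)) :
    114 * ((S.card : ℝ) * ((q : ℝ) ^ 2 - 1)) ≤
      56 * (q : ℝ) ^ 6 + 228 * (q : ℝ) ^ 5 + 114 * (q : ℝ) ^ 4 := by
  have h1 := S_bound h (fun j i => ev ω (vec j i)) frm 0 (by
    ext i
    fin_cases i
    · change ev ω (vec 0 0) = 1
      simp [ev, vec]
    · change ev ω (vec 0 1) = 0
      simp [ev, vec]
    · change ev ω (vec 0 2) = 0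
      simp [ev, vec]) frm_par (by
    intro t i j
    rw [herm_ev σ ω hω hσω, (vec_orth t i j).1, (vec_orth t i j).2]
    split_ifs <;> simp) S hS
  rw [Fintype.card_fin] at h1
  norm_num at h1
  linarith

end Pool.Agent.H16DUP
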