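import Pool.Agent.H16DUP.Data

/-!
# The fields with `5 ^ (2 k)` elements, `k` odd
-/

set_option autoImplicit false
set_option linter.unusedSectionVars false

namespace Pool.Agent.H16DUP

open Finset

variable {F : Type} [Field F] [Fintype F] [CharP F 5]

theorem five_zero : (5 : F) = 0 := by
  have := CharP.cast_eq_zero F 5
  exact_mod_cast this

theorem hyp_frob (k : ℕ) (hk : Odd k) (hc : Fintype.card F = (5 ^ k) ^ 2) :
    haveI : Fact (Nat.Prime 5) := ⟨by norm_num⟩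
    Hyp (iterateFrobenius F 5 k) (5 ^ k) := by
  have : Fact (Nat.Prime 5) := ⟨by norm_num⟩
  refine ⟨?_, hc, fun x => iterateFrobenius_def 5 k x⟩
  obtain ⟨m, rfl⟩ := hk
  rw [pow_succ]
  have : 0 < 5 ^ (2 * m) := by positivity
  omega

theorem exists_root (k : ℕ) (hc : Fintype.card F = (5 ^ k) ^ 2) : ∃ ω : F, ω ^ 2 = 2 := by
  have h5 := five_zero (F := F)
  have hr : ringChar F ≠ 2 := by
    rw [ringChar.eq F 5]
    norm_num
  have h20 : (2 : F) ≠ 0 := by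
    intro h2
    have : (1 : F) = 0 := by linear_combination h5 - 2 * h2
    exact one_ne_zero this
  have h24 : (2 : F) ^ 4 = 1 := by linear_combination 3 * h5
  have h25 : (2 : F) ^ (Fintype.card F / 2) = 1 := by
    have h8 : ∃ m, Fintype.card F = 8 * m + 1 := by
      rw [hc, ← pow_mul, mul_comm, pow_mul]
      norm_num
      have : 25 ^ k % 8 = 1 := by
        rw [Nat.pow_mod]
        norm_num
      exact ⟨25 ^ k / 8, by omega⟩
    obtain ⟨m, hm⟩ := h8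
    rw [hm, show (8 * m + 1) / 2 = 4 * m by omega, pow_mul, h24, one_pow]
  obtain ⟨r, hr⟩ := (FiniteField.isSquare_iff hr h20).2 h25
  exact ⟨r, by rw [hr, sq]⟩

theorem frob_root (k : ℕ) (hk : Odd k) (ω : F) (hω : ω ^ 2 = 2) : ω ^ (5 ^ k) = -ω := by
  have h5 := five_zero (F := F)
  have h1 : ω ^ 5 = -ω := by
    linear_combination (ω ^ 3 + 2 * ω) * hω + ω * h5
  have h2 : ∀ n : ℕ, ω ^ (5 ^ n) = (-1) ^ n * ω := by
    intro n
    induction n with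
    | zero => simp
    | succ n ih =>
      rw [pow_succ, pow_mul, ih, mul_pow, h1, ← pow_mul, mul_comm n 5, pow_mul]
      norm_num
      rw [pow_succ]
      ring
  rw [h2, hk.neg_one_pow]
  ring

theorem field_bound (k : ℕ) (hk : Odd k) (hc : Fintype.card F = (5 ^ k) ^ 2)
    (S : Finset (Projectivization F (Fin 3 → F)))
    (hS : ∀ x ∈ S, ∀ y ∈ S, ∀ z ∈ S, x ≠ y → y ≠ z → x ≠ z →
      ¬ ((∑ i : Fin 3, x.rep i * (y.rep i) ^ (5 ^ k)) = 0 ∧
         (∑ i : Fin 3, y.rep i * (z.rep i) ^ (5 ^ k)) = 0 ∧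
         (∑ i : Fin 3, x.rep i * (z.rep i) ^ (5 ^ k)) = 0)) :
    114 * ((S.card : ℝ) * (((5 ^ k : ℕ) : ℝ) ^ 2 - 1)) ≤
      56 * ((5 ^ k : ℕ) : ℝ) ^ 6 + 228 * ((5 ^ k : ℕ) : ℝ) ^ 5 + 114 * ((5 ^ k : ℕ) : ℝ) ^ 4 := by
  have : Fact (Nat.Prime 5) := ⟨by norm_num⟩
  have h := hyp_frob (F := F) k hk hc
  obtain ⟨ω, hω⟩ := exists_root (F := F) k hc
  apply char5_bound h ω hω (by rw [iterateFrobenius_def]; exact frob_root k hk ω hω) S
  intro x hx y hy z hz hxy hyz hxz hh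
  apply hS x hx y hy z hz hxy hyz hxz
  simpa only [herm, iterateFrobenius_def] using hh

theorem final_arith (Q s : ℝ) (hQ : 1000 ≤ Q) (h1 : (1 / 2 - 1 / 228) * Q ^ 4 ≤ s)
    (h2 : 114 * (s * (Q ^ 2 - 1)) ≤ 56 * Q ^ 6 + 228 * Q ^ 5 + 114 * Q ^ 4) : False := by
  have hQ2 : 0 ≤ Q ^ 2 - 1 := by nlinarith
  have h3 : ((1 / 2 - 1 / 228) * Q ^ 4) * (Q ^ 2 - 1) ≤ s * (Q ^ 2 - 1) :=
    mul_le_mul_of_nonneg_right h1 hQ2
  have h4 : (113 / 2) * Q ^ 4 * (Q ^ 2 - 1) ≤ 56 * Q ^ 6 + 228 * Q ^ 5 + 114 * Q ^ 4 := by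
    linarith
  have h5 : Q ^ 4 * (Q ^ 2 - 456 * Q - 341) ≤ 0 := by
    nlinarith
  have h6 : 0 < Q ^ 4 * (Q ^ 2 - 456 * Q - 341) := by
    apply mul_pos (by positivity)
    nlinarith
  linarith

end Pool.Agent.H16DUP
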