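import Mathlib

/-!
# Hermitian geometry over a finite field `F` with `q ^ 2` elements: counting

`σ x = x ^ q` is an involution of the field `F`, `herm σ x y = ∑ x i * σ (y i)`.
-/

set_option autoImplicit false
set_option linter.unusedSectionVars false

namespace Pool.Agent.H16DUP

open Finset

variable {F : Type} [Field F] [Fintype F]

/-- the Hermitian form -/
def herm (σ : F →+* F) (x y : Fin 3 → F) : F := ∑ i, x i * σ (y i)

/-- the standing hypotheses -/
structure Hyp (σ : F →+* F) (q : ℕ) : Prop where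
  hq : 2 ≤ q
  card : Fintype.card F = q ^ 2
  pow : ∀ x, σ x = x ^ q

variable {σ : F →+* F} {q : ℕ}

theorem Hyp.invol (h : Hyp σ q) (x : F) : σ (σ x) = x := by
  rw [h.pow, h.pow, ← pow_mul, ← sq, ← h.card]
  exact FiniteField.pow_card x

theorem herm_add_left (x y z : Fin 3 → F) : herm σ (x + y) z = herm σ x z + herm σ y z := by
  simp [herm, add_mul, Finset.sum_add_distrib]

theorem herm_smul_left (c : F) (x z : Fin 3 → F) : herm σ (c • x) z = c * herm σ x z := by
  simp [herm, Finset.mul_sum, mul_assoc]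

theorem herm_smul_right (c : F) (x z : Fin 3 → F) : herm σ x (c • z) = σ c * herm σ x z := by
  simp only [herm, Finset.mul_sum, Pi.smul_apply, smul_eq_mul, map_mul]
  exact Finset.sum_congr rfl fun i _ => by ring

theorem herm_conj (h : Hyp σ q) (x y : Fin 3 → F) : σ (herm σ x y) = herm σ y x := by
  simp only [herm, map_sum, map_mul, h.invol]
  exact Finset.sum_congr rfl fun i _ => by ring

theorem herm_zero_comm (h : Hyp σ q) {x y : Fin 3 → F} (h0 : herm σ x y = 0) : herm σ y x = 0 := by
  rw [← herm_conj h, h0, map_zero]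

theorem herm_self_fixed (h : Hyp σ q) (x : Fin 3 → F) : (herm σ x x) ^ q = herm σ x x := by
  rw [← h.pow, herm_conj h]

/-! ### the norm map -/

open Classical in
theorem card_pow_eq_le (n : ℕ) (hn : 0 < n) (y : F) :
    (univ.filter (fun l : F => l ^ n = y)).card ≤ n := by
  have h1 : univ.filter (fun l : F => l ^ n = y) ⊆ (Polynomial.nthRoots n y).toFinset := by
    intro l hl
    rw [mem_filter] at hl
    rw [Multiset.mem_toFinset, Polynomial.mem_nthRoots hn]
    exact hl.2
  exact (card_le_card h1).trans ((Multiset.toFinset_card_le _).trans (Polynomial.card_nthRoots n y))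

open Classical in
theorem card_norm_eq (h : Hyp σ q) (y : F) (hy0 : y ≠ 0) (hy : y ^ q = y) :
    (univ.filter (fun l : F => l ^ (q + 1) = y)).card = q + 1 := by
  have hq := h.hq
  set Y : Finset F := univ.filter (fun y : F => y ≠ 0 ∧ y ^ q = y) with hY
  have hYc : Y.card ≤ q - 1 := by
    have h1 : Y ⊆ univ.filter (fun l : F => l ^ (q - 1) = 1) := by
      intro l hl
      rw [hY, mem_filter] at hl
      rw [mem_filter]
      refine ⟨mem_univ _, ?_⟩
      obtain ⟨-, hl0, hl1⟩ := hl
      have h2 : l ^ (q - 1) * l = 1 * l := by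
        rw [← pow_succ, show q - 1 + 1 = q by omega, hl1, one_mul]
      exact mul_right_cancel₀ hl0 h2
    exact (card_le_card h1).trans (card_pow_eq_le (q - 1) (by omega) 1)
  have hsum : ∑ y ∈ Y, (univ.filter (fun l : F => l ^ (q + 1) = y)).card = q ^ 2 - 1 := by
    have h1 : (univ.filter (fun l : F => l ≠ 0)).card =
        ∑ y ∈ Y, ((univ.filter (fun l : F => l ≠ 0)).filter (fun l : F => l ^ (q + 1) = y)).card := by
      apply Finset.card_eq_sum_card_fiberwise
      intro l hl
      have hl' : l ≠ 0 := by simpa using hl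
      simp only [hY, coe_filter, mem_univ, true_and, Set.mem_ofPred_eq]
      refine ⟨pow_ne_zero _ hl', ?_⟩
      rw [← pow_mul, show (q + 1) * q = q ^ 2 + q by ring, pow_add, ← h.card, FiniteField.pow_card,
        ← pow_succ']
    have h2 : (univ.filter (fun l : F => l ≠ 0)).card = q ^ 2 - 1 := by
      rw [Finset.filter_ne' univ (0 : F), card_erase_of_mem (mem_univ _), card_univ, h.card]
    rw [h2] at h1
    rw [h1]
    apply Finset.sum_congr rfl
    intro y hy
    rw [hY, mem_filter] at hy
    congr 1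
    ext l
    simp only [mem_filter, mem_univ, true_and]
    constructor
    · intro hl
      refine ⟨?_, hl⟩
      rintro rfl
      rw [zero_pow (by omega)] at hl
      exact hy.2.1 hl.symm
    · exact fun hl => hl.2
  have hle : ∀ y ∈ Y, (univ.filter (fun l : F => l ^ (q + 1) = y)).card ≤ q + 1 :=
    fun y _ => card_pow_eq_le (q + 1) (by omega) y
  by_contra hne
  have hyY : y ∈ Y := by rw [hY, mem_filter]; exact ⟨mem_univ _, hy0, hy⟩
  have hlt : ∑ y ∈ Y, (univ.filter (fun l : F => l ^ (q + 1) = y)).card < ∑ y ∈ Y, (q + 1) :=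
    Finset.sum_lt_sum hle ⟨y, hyY, lt_of_le_of_ne (hle y hyY) hne⟩
  rw [hsum, Finset.sum_const, smul_eq_mul] at hlt
  have h3 : Y.card * (q + 1) ≤ (q - 1) * (q + 1) := Nat.mul_le_mul_right _ hYc
  have h4 : (q - 1) * (q + 1) = q ^ 2 - 1 := by
    obtain ⟨r, rfl⟩ : ∃ r, q = r + 1 := ⟨q - 1, by omega⟩
    simp only [Nat.add_sub_cancel]
    have : (r + 1) ^ 2 = r * (r + 1 + 1) + 1 := by ring
    omega
  omega

open Classical in
/-- the number of the scalars `l` for which `l x` is a unit vector -/
theorem card_unit_scalars (h : Hyp σ q) (x : Fin 3 → F) (hx : herm σ x x ≠ 0) :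
    (univ.filter (fun l : Fˣ => herm σ ((l : F) • x) ((l : F) • x) = 1)).card = q + 1 := by
  have h1 := card_norm_eq h (herm σ x x)⁻¹ (inv_ne_zero hx) (by rw [inv_pow, herm_self_fixed h])
  have hq := h.hq
  have key : ∀ l : F, herm σ (l • x) (l • x) = l ^ (q + 1) * herm σ x x := by
    intro l
    rw [herm_smul_left, herm_smul_right, h.pow]
    ring
  rw [← h1]
  apply Finset.card_bij (fun (l : Fˣ) _ => (l : F))
  · intro l hl
    rw [mem_filter] at hl ⊢
    refine ⟨mem_univ _, ?_⟩
    have := hl.2
    rw [key] at this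
    exact eq_inv_of_mul_eq_one_left this
  · intro l _ l' _ hll
    exact Units.ext hll
  · intro l hl
    rw [mem_filter] at hl
    have hl0 : l ≠ 0 := by
      rintro rfl
      rw [zero_pow (by omega)] at hl
      exact inv_ne_zero hx hl.2.symm
    refine ⟨Units.mk0 l hl0, ?_, rfl⟩
    rw [mem_filter]
    refine ⟨mem_univ _, ?_⟩
    rw [Units.val_mk0, key, hl.2, inv_mul_cancel₀ hx]

end Pool.Agent.H16DUP
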