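import Pool.Agent.H16DUP.Count

/-!
# The expander mixing bound for the orthogonality relation
-/

set_option autoImplicit false
set_option linter.unusedSectionVars false

namespace Pool.Agent.H16DUP

open Finset Matrix

variable {F : Type} [Field F] [Fintype F] {σ : F →+* F} {q : ℕ}

open Classical in
theorem card_both_le (h : Hyp σ q) (v w : Fin 3 → F) (hv : v ≠ 0) :
    ((univ.filter (fun x : Fin 3 → F => herm σ x v = 0 ∧ herm σ x w = 0)).card : ℝ) ≤
      (q : ℝ) ^ 2 + (if w ∈ univ.image (fun c : F => c • v) then (q : ℝ) ^ 4 else 0) := by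
  by_cases hvw : v ⨯₃ w = 0
  · have h1 : w ∈ univ.image (fun c : F => c • v) := by
      have h3 := (crossProduct_ne_zero_iff_linearIndependent (F := F) (v := v) (w := w)).not
      rw [not_not] at h3
      have h5 := h3.1 hvw
      rw [LinearIndependent.pair_iff' hv] at h5
      push Not at h5
      obtain ⟨a, ha⟩ := h5
      exact mem_image.2 ⟨a, mem_univ _, ha⟩
    rw [if_pos h1]
    have h2 : (univ.filter (fun x : Fin 3 → F => herm σ x v = 0 ∧ herm σ x w = 0)).card ≤ q ^ 4 := by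
      rw [← card_hyper h v hv]
      apply card_le_card
      intro x hx
      rw [mem_filter] at hx ⊢
      exact ⟨hx.1, hx.2.1⟩
    have h3 : ((univ.filter (fun x : Fin 3 → F => herm σ x v = 0 ∧ herm σ x w = 0)).card : ℝ) ≤
        (q : ℝ) ^ 4 := by exact_mod_cast h2
    have h4 : (0 : ℝ) ≤ (q : ℝ) ^ 2 := by positivity
    linarith
  · have h2 := card_two h v w hvw
    have h3 : ((univ.filter (fun x : Fin 3 → F => herm σ x v = 0 ∧ herm σ x w = 0)).card : ℝ) ≤
        (q : ℝ) ^ 2 := by exact_mod_cast h2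
    split_ifs
    · have h4 : (0 : ℝ) ≤ (q : ℝ) ^ 4 := by positivity
      linarith
    · linarith

open Classical in
theorem mixing (h : Hyp σ q) (A : Finset (Fin 3 → F)) (hA : ∀ v ∈ A, v ≠ 0) :
    (A.card : ℝ) ^ 2 / (q : ℝ) ^ 2 - (A.card : ℝ) * (q : ℝ) ^ 3 ≤
      ∑ x ∈ A, ∑ v ∈ A, (if herm σ x v = 0 then (1 : ℝ) else 0) := by
  have hq := h.hq
  have hq0 : (0 : ℝ) < q := by
    have : 0 < q := by omega
    exact_mod_cast this
  set a : ℝ := (A.card : ℝ) with ha
  have ha0 : 0 ≤ a := by rw [ha]; positivity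
  set n : (Fin 3 → F) → ℝ := fun x => ∑ v ∈ A, (if herm σ x v = 0 then (1 : ℝ) else 0) with hn
  have hV : (Fintype.card (Fin 3 → F) : ℝ) = (q : ℝ) ^ 6 := by
    rw [Fintype.card_fun, h.card, Fintype.card_fin]
    push_cast
    ring
  have S1 : ∑ x : Fin 3 → F, n x = a * (q : ℝ) ^ 4 := by
    rw [hn, Finset.sum_comm]
    have h1 : ∀ v ∈ A, ∑ x : Fin 3 → F, (if herm σ x v = 0 then (1 : ℝ) else 0) = (q : ℝ) ^ 4 := by
      intro v hv
      rw [← Finset.sum_filter, Finset.sum_const, nsmul_eq_mul, mul_one, card_hyper h v (hA v hv)]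
      push_cast
      ring
    rw [Finset.sum_congr rfl h1, Finset.sum_const, nsmul_eq_mul]
  have S2 : ∑ x : Fin 3 → F, n x ^ 2 ≤ a ^ 2 * (q : ℝ) ^ 2 + a * (q : ℝ) ^ 6 := by
    have h1 : ∀ x, n x ^ 2 = ∑ v ∈ A, ∑ w ∈ A,
        (if herm σ x v = 0 ∧ herm σ x w = 0 then (1 : ℝ) else 0) := by
      intro x
      rw [hn, sq, Finset.sum_mul_sum]
      apply Finset.sum_congr rfl
      intro v _
      apply Finset.sum_congr rfl
      intro w _
      by_cases h1 : herm σ x v = 0 <;> by_cases h2 : herm σ x w = 0 <;> simp [h1, h2]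
    rw [Finset.sum_congr rfl (fun x _ => h1 x), Finset.sum_comm]
    have h2 : ∀ v ∈ A, ∑ x : Fin 3 → F, ∑ w ∈ A,
        (if herm σ x v = 0 ∧ herm σ x w = 0 then (1 : ℝ) else 0) ≤
        a * (q : ℝ) ^ 2 + (q : ℝ) ^ 6 := by
      intro v hv
      rw [Finset.sum_comm]
      have h3 : ∀ w ∈ A, ∑ x : Fin 3 → F,
          (if herm σ x v = 0 ∧ herm σ x w = 0 then (1 : ℝ) else 0) ≤
          (q : ℝ) ^ 2 + (if w ∈ univ.image (fun c : F => c • v) then (q : ℝ) ^ 4 else 0) := by
        intro w _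
        rw [← Finset.sum_filter, Finset.sum_const, nsmul_eq_mul, mul_one]
        exact card_both_le h v w (hA v hv)
      refine (Finset.sum_le_sum h3).trans ?_
      rw [Finset.sum_add_distrib, Finset.sum_const, nsmul_eq_mul, ← Finset.sum_filter,
        Finset.sum_const, nsmul_eq_mul]
      have h4 : (A.filter (fun w => w ∈ univ.image (fun c : F => c • v))).card ≤ q ^ 2 := by
        have h5 : A.filter (fun w => w ∈ univ.image (fun c : F => c • v)) ⊆
            univ.image (fun c : F => c • v) := by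
          intro w hw
          rw [mem_filter] at hw
          exact hw.2
        refine (card_le_card h5).trans (card_image_le.trans ?_)
        rw [card_univ, h.card]
      have h6 : ((A.filter (fun w => w ∈ univ.image (fun c : F => c • v))).card : ℝ) ≤ (q : ℝ) ^ 2 := by
        exact_mod_cast h4
      have h7 : ((A.filter (fun w => w ∈ univ.image (fun c : F => c • v))).card : ℝ) * (q : ℝ) ^ 4 ≤
          (q : ℝ) ^ 2 * (q : ℝ) ^ 4 := mul_le_mul_of_nonneg_right h6 (by positivity)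
      calc _ ≤ a * (q : ℝ) ^ 2 + (q : ℝ) ^ 2 * (q : ℝ) ^ 4 := by linarith
        _ = _ := by ring
    refine (Finset.sum_le_sum h2).trans ?_
    rw [Finset.sum_const, nsmul_eq_mul]
    apply le_of_eq
    rw [← ha]
    ring
  have S3 : ∑ x : Fin 3 → F, (n x - a / (q : ℝ) ^ 2) ^ 2 ≤ a * (q : ℝ) ^ 6 := by
    have h1 : ∀ x, (n x - a / (q : ℝ) ^ 2) ^ 2 =
        n x ^ 2 - (2 * (a / (q : ℝ) ^ 2)) * n x + (a / (q : ℝ) ^ 2) ^ 2 := fun x => by ring
    rw [Finset.sum_congr rfl (fun x _ => h1 x), Finset.sum_add_distrib, Finset.sum_sub_distrib,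
      ← Finset.mul_sum, S1, Finset.sum_const, card_univ, nsmul_eq_mul, hV]
    have h2 : 2 * (a / (q : ℝ) ^ 2) * (a * (q : ℝ) ^ 4) = 2 * a ^ 2 * (q : ℝ) ^ 2 := by
      field_simp
    have h3 : (q : ℝ) ^ 6 * (a / (q : ℝ) ^ 2) ^ 2 = a ^ 2 * (q : ℝ) ^ 2 := by
      field_simp
    rw [h2, h3]
    linarith
  have S4 : (∑ x ∈ A, (n x - a / (q : ℝ) ^ 2)) ^ 2 ≤ a * (a * (q : ℝ) ^ 6) := by
    refine sq_sum_le_card_mul_sum_sq.trans ?_
    apply mul_le_mul_of_nonneg_left _ ha0
    refine le_trans ?_ S3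
    exact Finset.sum_le_univ_sum_of_nonneg (fun x => sq_nonneg _)
  have S5 : a * (a * (q : ℝ) ^ 6) = (a * (q : ℝ) ^ 3) ^ 2 := by ring
  rw [S5] at S4
  have S6 := (abs_le_of_sq_le_sq' S4 (by positivity)).1
  rw [Finset.sum_sub_distrib, Finset.sum_const, nsmul_eq_mul, ← ha] at S6
  have S7 : a * (a / (q : ℝ) ^ 2) = a ^ 2 / (q : ℝ) ^ 2 := by ring
  rw [S7] at S6
  linarith

end Pool.Agent.H16DUP
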