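import Pool.Agent.H16DUP.Bound

/-!
# From a set of points of the projective plane to a scale invariant function
-/

set_option autoImplicit false
set_option linter.unusedSectionVars false

namespace Pool.Agent.H16DUP

open Finset Matrix

variable {F : Type} [Field F] [Fintype F] {σ : F →+* F} {q : ℕ}

open Classical in
/-- the indicator function of the nonabsolute vectors spanning a point of `S` -/
noncomputable def ind (σ : F →+* F) (S : Finset (Projectivization F (Fin 3 → F)))
    (x : Fin 3 → F) : ℕ :=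
  if herm σ x x ≠ 0 ∧ ∃ P ∈ S, ∃ c : F, x = c • P.rep then 1 else 0

theorem ind_le (S : Finset (Projectivization F (Fin 3 → F))) (x : Fin 3 → F) :
    ind σ S x ≤ 1 := by
  rw [ind]
  split_ifs <;> omega

theorem ind_abs (S : Finset (Projectivization F (Fin 3 → F))) (x : Fin 3 → F)
    (hx : herm σ x x = 0) : ind σ S x = 0 := by
  rw [ind, if_neg]
  exact fun h => h.1 hx

theorem ind_scale (S : Finset (Projectivization F (Fin 3 → F))) (l : Fˣ) (x : Fin 3 → F) :
    ind σ S ((l : F) • x) = ind σ S x := by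
  rw [ind, ind]
  congr 1
  apply propext
  constructor
  · rintro ⟨h1, P, hP, c, hc⟩
    refine ⟨fun h0 => h1 ?_, P, hP, (l : F)⁻¹ * c, ?_⟩
    · rw [herm_smul_left_zero, herm_smul_right_zero]
      exact h0
    · rw [mul_smul, ← hc, smul_smul, inv_mul_cancel₀ l.ne_zero, one_smul]
  · rintro ⟨h1, P, hP, c, hc⟩
    refine ⟨fun h0 => h1 ?_, P, hP, (l : F) * c, ?_⟩
    · rw [herm_smul_left_zero, herm_smul_right_zero] at h0
      exact h0
    · rw [mul_smul, ← hc]

theorem ind_tri (h : Hyp σ q) (S : Finset (Projectivization F (Fin 3 → F)))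
    (hS : ∀ x ∈ S, ∀ y ∈ S, ∀ z ∈ S, x ≠ y → y ≠ z → x ≠ z →
      ¬ (herm σ x.rep y.rep = 0 ∧ herm σ y.rep z.rep = 0 ∧ herm σ x.rep z.rep = 0))
    (B : Matrix (Fin 3) (Fin 3) F) (hB : Orth σ B) :
    ind σ S (B 0) * ind σ S (B 1) * ind σ S (B 2) = 0 := by
  by_contra hne
  have h0 : ind σ S (B 0) ≠ 0 := by
    intro h0
    rw [h0] at hne
    simp at hne
  have h1 : ind σ S (B 1) ≠ 0 := by
    intro h0
    rw [h0] at hne
    simp at hne
  have h2 : ind σ S (B 2) ≠ 0 := by
    intro h0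
    rw [h0] at hne
    simp at hne
  have key : ∀ x, ind σ S x ≠ 0 → herm σ x x ≠ 0 ∧ ∃ P ∈ S, ∃ c : F, x = c • P.rep := by
    intro x hx
    rw [ind] at hx
    by_contra hc
    rw [if_neg hc] at hx
    exact hx rfl
  obtain ⟨n0, P, hP, a, ha⟩ := key _ h0
  obtain ⟨n1, Q, hQ, b, hb⟩ := key _ h1
  obtain ⟨n2, R, hR, c, hc⟩ := key _ h2
  have main : ∀ (i j : Fin 3) (P Q : Projectivization F (Fin 3 → F)) (a b : F), i ≠ j →
      B i = a • P.rep → B j = b • Q.rep → herm σ P.rep Q.rep = 0 ∧ P ≠ Q := by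
    intro i j P Q a b hij hi hj
    have e1 : herm σ (B i) (B j) = 0 := by rw [hB i j, if_neg hij]
    have e2 : herm σ (B i) (B i) = 1 := by rw [hB i i, if_pos rfl]
    have e3 : herm σ (B j) (B j) = 1 := by rw [hB j j, if_pos rfl]
    rw [hi, hj, herm_smul_left, herm_smul_right] at e1
    rw [hi, herm_smul_left, herm_smul_right] at e2
    rw [hj, herm_smul_left, herm_smul_right] at e3
    have ha : a ≠ 0 := by
      rintro rfl
      simp at e2
    have hb : σ b ≠ 0 := by
      intro hb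
      rw [hb] at e3
      simp at e3
    have e4 : herm σ P.rep Q.rep = 0 := by
      rcases mul_eq_zero.1 e1 with hh | hh
      · exact absurd hh ha
      · rcases mul_eq_zero.1 hh with hh | hh
        · exact absurd hh hb
        · exact hh
    refine ⟨e4, ?_⟩
    rintro rfl
    rw [e4] at e2
    simp at e2
  obtain ⟨o01, d01⟩ := main 0 1 P Q a b (by decide) ha hb
  obtain ⟨o12, d12⟩ := main 1 2 Q R b c (by decide) hb hc
  obtain ⟨o02, d02⟩ := main 0 2 P R a c (by decide) ha hc
  exact hS P hP Q hQ R hR d01 d12 d02 ⟨o01, o12, o02⟩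

open Classical in
theorem card_points (h : Hyp σ q) (S : Finset (Projectivization F (Fin 3 → F))) :
    S.card * (q ^ 2 - 1) ≤ (univ.filter (fun x => ind σ S x = 1)).card + q ^ 4 * (q + 1) := by
  have h1 : S.card * (q ^ 2 - 1) = (S ×ˢ (univ : Finset Fˣ)).card := by
    rw [card_product, card_univ, Fintype.card_units, h.card]
  have h2 : (S ×ˢ (univ : Finset Fˣ)).card ≤
      ((univ.filter (fun x => ind σ S x = 1)) ∪
        (univ.filter (fun x : Fin 3 → F => herm σ x x = 0))).card := by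
    apply Finset.card_le_card_of_injOn (fun p => (p.2 : F) • p.1.rep)
    · rintro ⟨P, l⟩ hp
      rw [mem_coe, mem_product] at hp
      rw [mem_coe, mem_union, mem_filter, mem_filter]
      by_cases h0 : herm σ ((l : F) • P.rep) ((l : F) • P.rep) = 0
      · right
        exact ⟨mem_univ _, h0⟩
      · left
        refine ⟨mem_univ _, ?_⟩
        change ind σ S ((l : F) • P.rep) = 1
        rw [ind, if_pos]
        exact ⟨h0, P, hp.1, l, rfl⟩
    · rintro ⟨P, l⟩ _ ⟨Q, m⟩ _ hpq
      have e1 : (l : F) • P.rep = (m : F) • Q.rep := hpq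
      have e2 : P = Q := by
        rw [← P.mk_rep, ← Q.mk_rep, Projectivization.mk_eq_mk_iff]
        refine ⟨l⁻¹ * m, ?_⟩
        rw [mul_smul, Units.smul_def m, ← e1, ← Units.smul_def l, smul_smul, inv_mul_cancel, one_smul]
      subst e2
      have e3 : (l : F) = m := smul_left_injective F P.rep_nonzero e1
      rw [Prod.mk.injEq]
      exact ⟨rfl, Units.ext e3⟩
  rw [h1]
  refine h2.trans ((card_union_le _ _).trans ?_)
  have h3 := card_abs_le h
  omega

open Classical in
/-- the bound for triangle-free sets of points -/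
theorem S_bound (h : Hyp σ q) {ι τ : Type} [Fintype ι] [DecidableEq ι] [Fintype τ]
    (w : ι → Fin 3 → F) (fr : τ → Fin 3 → ι) (i0 : ι) (hw0 : w i0 = Pi.single 0 1)
    (hpar : ∀ j, (univ.filter (fun p : τ × Fin 3 => fr p.1 p.2 = j)).card % 2 =
      if j = i0 then 1 else 0)
    (horth : ∀ t i j, herm σ (w (fr t i)) (w (fr t j)) = if i = j then 1 else 0)
    (S : Finset (Projectivization F (Fin 3 → F)))
    (hS : ∀ x ∈ S, ∀ y ∈ S, ∀ z ∈ S, x ≠ y → y ≠ z → x ≠ z →
      ¬ (herm σ x.rep y.rep = 0 ∧ herm σ y.rep z.rep = 0 ∧ herm σ x.rep z.rep = 0)) :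
    6 * (Fintype.card τ : ℝ) * ((S.card : ℝ) * ((q : ℝ) ^ 2 - 1)) ≤
      (3 * (Fintype.card τ : ℝ) - 1) * (q : ℝ) ^ 6 + 6 * (Fintype.card τ : ℝ) * (q : ℝ) ^ 5 +
      6 * (Fintype.card τ : ℝ) * ((q : ℝ) ^ 4 * (q + 1)) := by
  have h1 := A_bound h w fr i0 hw0 hpar horth (ind σ S) (ind_le S) (ind_scale S) (ind_abs S)
    (ind_tri h S hS)
  have h2 := card_points h S
  have hq := h.hq
  have h3 : ((S.card * (q ^ 2 - 1) : ℕ) : ℝ) ≤
      (((univ.filter (fun x => ind σ S x = 1)).card + q ^ 4 * (q + 1) : ℕ) : ℝ) := by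
    exact_mod_cast h2
  rw [Nat.cast_mul, Nat.cast_sub (by nlinarith)] at h3
  push_cast at h3
  have h4 : 6 * (Fintype.card τ : ℝ) * ((S.card : ℝ) * ((q : ℝ) ^ 2 - 1)) ≤
      6 * (Fintype.card τ : ℝ) * (((univ.filter (fun x => ind σ S x = 1)).card : ℝ) +
        (q : ℝ) ^ 4 * (q + 1)) := mul_le_mul_of_nonneg_left h3 (by positivity)
  rw [mul_add] at h4
  linarith

end Pool.Agent.H16DUP
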