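import Pool.Agent.H16DUP.Mixing

/-!
# Sums over the orthonormal frames, and the parity argument
-/

set_option autoImplicit false
set_option linter.unusedSectionVars false

namespace Pool.Agent.H16DUP

open Finset Matrix

variable {F : Type} [Field F] [Fintype F] {σ : F →+* F} {q : ℕ}

/-- the rows of `B` are orthonormal -/
def Orth (σ : F →+* F) (B : Matrix (Fin 3) (Fin 3) F) : Prop :=
  ∀ i j, herm σ (B i) (B j) = if i = j then 1 else 0

theorem orth_iff (B : Matrix (Fin 3) (Fin 3) F) :
    Orth σ B ↔ B * (B.map σ)ᵀ = 1 := by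
  constructor
  · intro hB
    ext i j
    rw [Matrix.mul_apply, Matrix.one_apply]
    exact hB i j
  · intro hB i j
    have := congrFun (congrFun hB i) j
    rw [Matrix.mul_apply, Matrix.one_apply] at this
    exact this

theorem orth_mul {B C : Matrix (Fin 3) (Fin 3) F} (hB : Orth σ B) (hC : Orth σ C) :
    Orth σ (B * C) := by
  rw [orth_iff] at *
  rw [Matrix.map_mul, Matrix.transpose_mul, Matrix.mul_assoc, ← Matrix.mul_assoc C, hC,
    Matrix.one_mul, hB]

open Classical in
/-- left multiplication by an orthonormal matrix permutes the orthonormal matrices -/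
theorem sum_orth_mul (H : Matrix (Fin 3) (Fin 3) F) (hH : Orth σ H)
    (G : Matrix (Fin 3) (Fin 3) F → ℝ) :
    ∑ B ∈ univ.filter (Orth σ), G (H * B) = ∑ B ∈ univ.filter (Orth σ), G B := by
  have hmaps : Set.MapsTo (fun B => H * B) (univ.filter (Orth σ) : Finset (Matrix (Fin 3) (Fin 3) F))
      (univ.filter (Orth σ) : Finset (Matrix (Fin 3) (Fin 3) F)) := by
    intro B hB
    rw [mem_coe, mem_filter] at *
    exact ⟨mem_univ _, orth_mul hH hB.2⟩
  have hinj : Set.InjOn (fun B => H * B)
      (univ.filter (Orth σ) : Finset (Matrix (Fin 3) (Fin 3) F)) := by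
    intro B _ C _ hBC
    have h1 : (H.map σ)ᵀ * H = 1 := by
      rw [mul_eq_one_comm]
      exact (orth_iff H).1 hH
    have h2 : (H.map σ)ᵀ * (H * B) = (H.map σ)ᵀ * (H * C) := congrArg _ hBC
    rwa [← Matrix.mul_assoc, ← Matrix.mul_assoc, h1, Matrix.one_mul, Matrix.one_mul] at h2
  apply Finset.sum_nbij (fun B => H * B)
  · intro B hB
    exact mem_coe.1 (hmaps (mem_coe.2 hB))
  · exact hinj
  · exact Finset.surjOn_of_injOn_of_card_le _ hmaps hinj le_rfl
  · intro B _
    rfl

/-- permute the rows -/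
def prow (π : Equiv.Perm (Fin 3)) (B : Matrix (Fin 3) (Fin 3) F) : Matrix (Fin 3) (Fin 3) F :=
  fun i => B (π i)

open Classical in
theorem sum_orth_perm (π : Equiv.Perm (Fin 3)) (G : Matrix (Fin 3) (Fin 3) F → ℝ) :
    ∑ B ∈ univ.filter (Orth σ), G (prow π B) = ∑ B ∈ univ.filter (Orth σ), G B := by
  have hmaps : Set.MapsTo (prow (F := F) π)
      (univ.filter (Orth σ) : Finset (Matrix (Fin 3) (Fin 3) F))
      (univ.filter (Orth σ) : Finset (Matrix (Fin 3) (Fin 3) F)) := by
    intro B hB
    rw [mem_coe, mem_filter] at *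
    refine ⟨mem_univ _, ?_⟩
    intro i j
    have := hB.2 (π i) (π j)
    simp only [EmbeddingLike.apply_eq_iff_eq] at this
    exact this
  have hinj : Set.InjOn (prow (F := F) π)
      (univ.filter (Orth σ) : Finset (Matrix (Fin 3) (Fin 3) F)) := by
    intro B _ C _ hBC
    funext i
    have := congrFun hBC (π.symm i)
    simpa [prow] using this
  apply Finset.sum_nbij (prow (F := F) π)
  · intro B hB
    exact mem_coe.1 (hmaps (mem_coe.2 hB))
  · exact hinj
  · exact Finset.surjOn_of_injOn_of_card_le _ hmaps hinj le_rfl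
  · intro B _
    rfl

open Classical in
/-- integrate out the third row -/
theorem sum_orth_pair (h : Hyp σ q) (G : (Fin 3 → F) → (Fin 3 → F) → ℝ) :
    ∑ B ∈ univ.filter (Orth σ), G (B 0) (B 1) =
      (q + 1) * ∑ v ∈ univ.filter (fun x => herm σ x x = 1),
        ∑ w ∈ univ.filter (fun x => herm σ x x = 1), (if herm σ v w = 0 then G v w else 0) := by
  have h1 : ∑ B ∈ univ.filter (Orth σ), G (B 0) (B 1) =
      ∑ p : (Fin 3 → F) × (Fin 3 → F), ∑ B ∈ (univ.filter (Orth σ)).filter
        (fun B => (B 0, B 1) = p), G (B 0) (B 1) := by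
    rw [Finset.sum_fiberwise]
  have h2 : ∀ p : (Fin 3 → F) × (Fin 3 → F), ∑ B ∈ (univ.filter (Orth σ)).filter
        (fun B => (B 0, B 1) = p), G (B 0) (B 1) =
        if herm σ p.1 p.1 = 1 then (if herm σ p.2 p.2 = 1 then
          (if herm σ p.1 p.2 = 0 then ((q : ℝ) + 1) * G p.1 p.2 else 0) else 0) else 0 := by
    rintro ⟨v, w⟩
    have h3 : ∀ B ∈ (univ.filter (Orth σ)).filter
        (fun B => (B 0, B 1) = (v, w)), G (B 0) (B 1) = G v w := by
      intro B hB
      rw [mem_filter, Prod.mk.injEq] at hB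
      rw [hB.2.1, hB.2.2]
    rw [Finset.sum_congr rfl h3, Finset.sum_const, nsmul_eq_mul]
    by_cases hv : herm σ v v = 1
    · by_cases hw : herm σ w w = 1
      · by_cases hvw : herm σ v w = 0
        · rw [if_pos hv, if_pos hw, if_pos hvw]
          congr 1
          have hc := card_third h v w hv hw hvw
          have : ((univ.filter (Orth σ)).filter (fun B => (B 0, B 1) = (v, w))).card = q + 1 := by
            rw [← hc]
            apply Finset.card_bij (fun (B : Matrix (Fin 3) (Fin 3) F) _ => B 2)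
            · intro B hB
              rw [mem_filter, mem_filter, Prod.mk.injEq] at hB
              obtain ⟨⟨-, hB⟩, rfl, rfl⟩ := hB
              rw [mem_filter]
              refine ⟨mem_univ _, ?_, ?_, ?_⟩
              · simpa using hB 2 2
              · simpa using hB 2 0
              · simpa using hB 2 1
            · intro B hB C hC hBC
              rw [mem_filter, mem_filter, Prod.mk.injEq] at hB hC
              funext i
              fin_cases i
              · exact hB.2.1.trans hC.2.1.symm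
              · exact hB.2.2.trans hC.2.2.symm
              · exact hBC
            · intro z hz
              rw [mem_filter] at hz
              obtain ⟨-, hz1, hz2, hz3⟩ := hz
              refine ⟨![v, w, z], ?_, rfl⟩
              rw [mem_filter, mem_filter]
              refine ⟨⟨mem_univ _, ?_⟩, rfl⟩
              intro i j
              fin_cases i <;> fin_cases j
              · exact hv
              · exact hvw
              · exact herm_zero_comm h hz2
              · exact herm_zero_comm h hvw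
              · exact hw
              · exact herm_zero_comm h hz3
              · exact hz2
              · exact hz3
              · exact hz1
          rw [this]
          push_cast
          ring
        · rw [if_pos hv, if_pos hw, if_neg hvw]
          have : ((univ.filter (Orth σ)).filter (fun B => (B 0, B 1) = (v, w))) = ∅ := by
            rw [Finset.filter_eq_empty_iff]
            intro B hB hB2
            rw [mem_filter] at hB
            rw [Prod.mk.injEq] at hB2
            apply hvw
            rw [← hB2.1, ← hB2.2]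
            simpa using hB.2 0 1
          rw [this]
          simp
      · rw [if_pos hv, if_neg hw]
        have : ((univ.filter (Orth σ)).filter (fun B => (B 0, B 1) = (v, w))) = ∅ := by
          rw [Finset.filter_eq_empty_iff]
          intro B hB hB2
          rw [mem_filter] at hB
          rw [Prod.mk.injEq] at hB2
          apply hw
          rw [← hB2.2]
          simpa using hB.2 1 1
        rw [this]
        simp
    · rw [if_neg hv]
      have : ((univ.filter (Orth σ)).filter (fun B => (B 0, B 1) = (v, w))) = ∅ := by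
        rw [Finset.filter_eq_empty_iff]
        intro B hB hB2
        rw [mem_filter] at hB
        rw [Prod.mk.injEq] at hB2
        apply hv
        rw [← hB2.1]
        simpa using hB.2 0 0
      rw [this]
      simp
  rw [h1, Finset.sum_congr rfl (fun p _ => h2 p), Fintype.sum_prod_type, Finset.mul_sum,
    Finset.sum_filter]
  apply Finset.sum_congr rfl
  intro v _
  by_cases hv : herm σ v v = 1
  · simp only [if_pos hv]
    rw [Finset.mul_sum, Finset.sum_filter]
    apply Finset.sum_congr rfl
    intro w _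
    by_cases hw : herm σ w w = 1
    · simp only [if_pos hw]
      by_cases hvw : herm σ v w = 0
      · simp only [if_pos hvw]
      · simp only [if_neg hvw, mul_zero]
    · simp only [if_neg hw]
  · simp only [if_neg hv]
    exact Finset.sum_const_zero

/-! ### parity -/

theorem parity_lemma {ι τ : Type} [Fintype ι] [DecidableEq ι] [Fintype τ] (fr : τ → Fin 3 → ι)
    (i0 : ι)
    (hpar : ∀ j, (univ.filter (fun p : τ × Fin 3 => fr p.1 p.2 = j)).card % 2 =
      if j = i0 then 1 else 0)
    (g : ι → ℕ) (hg : g i0 ≤ 1) :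
    g i0 ≤ ∑ t, ((g (fr t 0) + g (fr t 1) + g (fr t 2)) % 2) := by
  have h1 : (∑ t, (g (fr t 0) + g (fr t 1) + g (fr t 2))) =
      ∑ j, (univ.filter (fun p : τ × Fin 3 => fr p.1 p.2 = j)).card * g j := by
    have e1 : (∑ t, (g (fr t 0) + g (fr t 1) + g (fr t 2))) = ∑ t, ∑ i, g (fr t i) := by
      apply Finset.sum_congr rfl
      intro t _
      rw [Fin.sum_univ_three]
    rw [e1, ← Fintype.sum_prod_type' (f := fun t i => g (fr t i)),
      ← Finset.sum_fiberwise univ (fun p : τ × Fin 3 => fr p.1 p.2)]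
    apply Finset.sum_congr rfl
    intro j _
    rw [Finset.sum_congr rfl (g := fun _ => g j), Finset.sum_const, smul_eq_mul]
    intro p hp
    rw [mem_filter] at hp
    rw [hp.2]
  have h2 : (∑ t, (g (fr t 0) + g (fr t 1) + g (fr t 2))) % 2 = g i0 % 2 := by
    rw [h1, Finset.sum_nat_mod]
    have e2 : ∀ j, ((univ.filter (fun p : τ × Fin 3 => fr p.1 p.2 = j)).card * g j) % 2 =
        if j = i0 then g i0 % 2 else 0 := by
      intro j
      rw [Nat.mul_mod, hpar j]
      split_ifs with hj
      · rw [one_mul, Nat.mod_mod, hj]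
      · rw [zero_mul, Nat.zero_mod]
    rw [Finset.sum_congr rfl (fun j _ => e2 j), Finset.sum_ite_eq' univ i0 (fun _ => g i0 % 2),
      if_pos (mem_univ _), Nat.mod_mod]
  have h3 : (∑ t, ((g (fr t 0) + g (fr t 1) + g (fr t 2)) % 2)) % 2 =
      (∑ t, (g (fr t 0) + g (fr t 1) + g (fr t 2))) % 2 := (Finset.sum_nat_mod _ _ _).symm
  omega

theorem parity_three (a b c : ℕ) (ha : a ≤ 1) (hb : b ≤ 1) (hc : c ≤ 1) (habc : a * b * c = 0) :
    (((a + b + c) % 2 : ℕ) : ℝ) = a + b + c - 2 * (a * b + b * c + a * c) := by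
  interval_cases a <;> interval_cases b <;> interval_cases c <;> simp at habc ⊢ <;> norm_num

open Classical in
theorem frame_ineq {ι τ : Type} [Fintype ι] [DecidableEq ι] [Fintype τ]
    (w : ι → Fin 3 → F) (fr : τ → Fin 3 → ι) (i0 : ι) (hw0 : w i0 = Pi.single 0 1)
    (hpar : ∀ j, (univ.filter (fun p : τ × Fin 3 => fr p.1 p.2 = j)).card % 2 =
      if j = i0 then 1 else 0)
    (horth : ∀ t i j, herm σ (w (fr t i)) (w (fr t j)) = if i = j then 1 else 0)
    (f : (Fin 3 → F) → ℕ) (hf : ∀ x, f x ≤ 1)
    (htri : ∀ B, Orth σ B → f (B 0) * f (B 1) * f (B 2) = 0) :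
    ∑ B ∈ univ.filter (Orth σ), (f (B 0) : ℝ) ≤
      Fintype.card τ * (3 * ∑ B ∈ univ.filter (Orth σ), (f (B 0) : ℝ) -
        6 * ∑ B ∈ univ.filter (Orth σ), (f (B 0) : ℝ) * f (B 1)) := by
  set P : Matrix (Fin 3) (Fin 3) F → ℝ := fun B =>
    (((f (B 0) + f (B 1) + f (B 2)) % 2 : ℕ) : ℝ) with hP
  have h1 : ∀ B ∈ univ.filter (Orth σ), (f (B 0) : ℝ) ≤
      ∑ t : τ, P ((Matrix.of fun i => w (fr t i)) * B) := by
    intro B _
    have h2 := parity_lemma fr i0 hpar (fun j => f (w j ᵥ* B)) (hf _)
    have h3 : w i0 ᵥ* B = B 0 := by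
      rw [hw0]
      ext j
      rw [Matrix.vecMul, dotProduct, Finset.sum_eq_single 0]
      · simp
      · intro b _ hb
        simp [Pi.single_eq_of_ne hb]
      · intro hb
        exact absurd (mem_univ _) hb
    simp only [h3] at h2
    have h4 : ((f (B 0) : ℕ) : ℝ) ≤ ((∑ t, ((f (w (fr t 0) ᵥ* B) + f (w (fr t 1) ᵥ* B) +
      f (w (fr t 2) ᵥ* B)) % 2) : ℕ) : ℝ) := by exact_mod_cast h2
    refine h4.trans (le_of_eq ?_)
    rw [Nat.cast_sum]
    apply Finset.sum_congr rfl
    intro t _
    rfl
  have h5 : ∑ B ∈ univ.filter (Orth σ), (f (B 0) : ℝ) ≤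
      ∑ t : τ, ∑ B ∈ univ.filter (Orth σ), P ((Matrix.of fun i => w (fr t i)) * B) := by
    rw [Finset.sum_comm]
    exact Finset.sum_le_sum h1
  have h6 : ∀ t : τ, ∑ B ∈ univ.filter (Orth σ), P ((Matrix.of fun i => w (fr t i)) * B) =
      ∑ B ∈ univ.filter (Orth σ), P B := by
    intro t
    apply sum_orth_mul
    intro i j
    exact horth t i j
  rw [Finset.sum_congr rfl (fun t _ => h6 t), Finset.sum_const, card_univ, nsmul_eq_mul] at h5
  refine h5.trans (le_of_eq ?_)
  congr 1
  have h7 : ∀ B ∈ univ.filter (Orth σ), P B = (f (B 0) : ℝ) + f (B 1) + f (B 2) -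
      2 * ((f (B 0) : ℝ) * f (B 1) + (f (B 1) : ℝ) * f (B 2) + (f (B 0) : ℝ) * f (B 2)) := by
    intro B hB
    rw [mem_filter] at hB
    exact parity_three _ _ _ (hf _) (hf _) (hf _) (htri B hB.2)
  rw [Finset.sum_congr rfl h7, Finset.sum_sub_distrib, ← Finset.mul_sum]
  simp only [Finset.sum_add_distrib]
  have s1 : ∑ B ∈ univ.filter (Orth σ), (f (B 1) : ℝ) = ∑ B ∈ univ.filter (Orth σ), (f (B 0) : ℝ) := by
    have := sum_orth_perm (σ := σ) (Equiv.swap 0 1) (fun B => (f (B 0) : ℝ))
    simpa [prow] using this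
  have s2 : ∑ B ∈ univ.filter (Orth σ), (f (B 2) : ℝ) = ∑ B ∈ univ.filter (Orth σ), (f (B 0) : ℝ) := by
    have := sum_orth_perm (σ := σ) (Equiv.swap 0 2) (fun B => (f (B 0) : ℝ))
    simpa [prow] using this
  have s3 : ∑ B ∈ univ.filter (Orth σ), (f (B 1) : ℝ) * f (B 2) =
      ∑ B ∈ univ.filter (Orth σ), (f (B 0) : ℝ) * f (B 1) := by
    exact sum_orth_perm (σ := σ) (finRotate 3) (fun B => (f (B 0) : ℝ) * f (B 1))
  have s4 : ∑ B ∈ univ.filter (Orth σ), (f (B 0) : ℝ) * f (B 2) =
      ∑ B ∈ univ.filter (Orth σ), (f (B 0) : ℝ) * f (B 1) := by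
    have e1 : (Equiv.swap (1 : Fin 3) 2) 0 = 0 := by decide
    have e2 : (Equiv.swap (1 : Fin 3) 2) 1 = 2 := by decide
    have := sum_orth_perm (σ := σ) (Equiv.swap 1 2) (fun B => (f (B 0) : ℝ) * f (B 1))
    rw [← this]
    apply Finset.sum_congr rfl
    intro B _
    simp only [prow, e1, e2]
  rw [s1, s2, s3, s4]
  ring

end Pool.Agent.H16DUP
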